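import Pool.Agent.Helper51.PP.GoalsA2b

/-!
# Packet PP-A2-BL1 (MP_fc6b1e_nt)
-/

namespace Pool.Agent.Helper54.PP

open Finset Pool.Agent.Helper51.PP
open Pool.Agent.Helper17.PP (Sys)

/-- the bound is monotone in the constant -/
theorem bound_mono (i j : ℕ) {a K K' : ℕ} (hK : 1 ≤ K) (hKK : K ≤ K') (ha : a * K ≤ K') (E : ℝ)
    (hE : 0 ≤ E) :
    (a : ℝ) * ((K : ℝ) * 2 ^ (i + j) * ((i : ℝ) + 1) ^ K * (2 : ℝ) ^ (-(min i j : ℝ) / K) * E) ≤
      (K' : ℝ) * 2 ^ (i + j) * ((i : ℝ) + 1) ^ K' * (2 : ℝ) ^ (-(min i j : ℝ) / K') * E := by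
  have h1 : ((a : ℝ) * K) ≤ K' := by exact_mod_cast ha
  have h2 : ((i : ℝ) + 1) ^ K ≤ ((i : ℝ) + 1) ^ K' :=
    pow_le_pow_right₀ (by have : (0 : ℝ) ≤ i := Nat.cast_nonneg i
                          linarith) hKK
  have hKr : (1 : ℝ) ≤ K := by exact_mod_cast hK
  have hKKr : (K : ℝ) ≤ K' := by exact_mod_cast hKK
  have h3 : (2 : ℝ) ^ (-(min i j : ℝ) / K) ≤ (2 : ℝ) ^ (-(min i j : ℝ) / K') := by
    apply Real.rpow_le_rpow_of_exponent_le (by norm_num)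
    rw [neg_div, neg_div, neg_le_neg_iff]
    have hm : (0 : ℝ) ≤ min (i : ℝ) j := le_min (Nat.cast_nonneg i) (Nat.cast_nonneg j)
    exact div_le_div_of_nonneg_left hm (by linarith) hKKr
  have e1 : (a : ℝ) * ((K : ℝ) * 2 ^ (i + j) * ((i : ℝ) + 1) ^ K *
      (2 : ℝ) ^ (-(min i j : ℝ) / K) * E) =
      ((a : ℝ) * K) * (2 ^ (i + j) * (((i : ℝ) + 1) ^ K * ((2 : ℝ) ^ (-(min i j : ℝ) / K) * E))) := by
    ring
  have e2 : (K' : ℝ) * 2 ^ (i + j) * ((i : ℝ) + 1) ^ K' * (2 : ℝ) ^ (-(min i j : ℝ) / K') * E =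
      (K' : ℝ) * (2 ^ (i + j) * (((i : ℝ) + 1) ^ K' * ((2 : ℝ) ^ (-(min i j : ℝ) / K') * E))) := by
    ring
  rw [e1, e2]
  have hp : (0 : ℝ) ≤ ((i : ℝ) + 1) ^ K := by positivity
  gcongr

theorem a2_bl1 (h : A2_GEN) : Pool.Agent.Helper51.PP.A2_BL1 := by
  classical
  intro p B B₀ k U Λ C _ _ _ _ _ _ _ _ S ψ F _ _ hF K₀ ℓ hche hbs E _ lab 𝔪₀ nn d W Xd hChs hval
  have hcard : (1 : ℝ) ≤ (Fintype.card k : ℝ) := by
    have : 0 < Fintype.card k := Fintype.card_pos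
    exact_mod_cast this
  obtain ⟨K, hK, hgen⟩ := h p B B₀ k U Λ C S F hF K₀ ℓ (Fintype.card k) hcard hche hbs 𝔪₀ d
  refine ⟨(Fintype.card E + 1) * K, ?_, ?_⟩
  · exact le_trans hK (Nat.le_mul_of_pos_left K (Nat.succ_pos _))
  intro i j t y c α β Y hj ht hY hα hβ hsupp
  set Z : ℝ := Real.exp (-((2 : ℝ) ^ (i + j) / (2 * Y))) with hZ
  have key : ∀ e : E, ‖∑ q ∈ S.blk j with (S.spl q ∧ lab q = e),
      ∑ D ∈ S.mods i, α q * β D * S.chr ψ D y c t q *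
        (Real.exp (-(S.N q * S.nm D / Y)) : ℂ)‖ ≤
      K * 2 ^ (i + j) * (i + 1) ^ K * (2 : ℝ) ^ (-(min i j : ℝ) / K) * Z := by
    intro e
    obtain ⟨Up, hUp⟩ : ∃ Up : Set B, Up = {q | S.spl q ∧ lab q = e} := ⟨_, rfl⟩
    have h0 := hChs y c t e ht
    rw [← hUp] at h0
    have h1 := hgen nn Up {q | S.spl q ∧ y q ≠ 0} W
      (fun q ↦ Xd q (y q) (c q) t e) h0 i j α β Y hj hY hα hβ
      (fun D hD ↦ ⟨(hsupp D hD).1, fun q hq ↦
        ⟨((hsupp D hD).2 q hq).1, ((hsupp D hD).2 q hq).2.2⟩⟩)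
    refine le_trans (le_of_eq ?_) h1
    congr 1
    refine Finset.sum_congr ?_ fun q hq ↦ ?_
    · ext q
      rw [Finset.mem_filter, Finset.mem_filter, hUp]
      rfl
    obtain ⟨hqb, hqU⟩ := Finset.mem_filter.mp hq
    rw [hUp] at hqU
    obtain ⟨hqs, hqe⟩ := hqU
    refine Finset.sum_congr rfl fun D _ ↦ ?_
    by_cases hD : β D = 0
    · rw [hD]; ring
    · congr 2
      unfold Sys.chr
      refine Finset.prod_congr rfl fun q' hq' ↦ ?_
      obtain ⟨a1, a2, a3⟩ := (hsupp D hD).2 q' hq'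
      have hbl : S.bl q = j := by
        unfold Sys.blk at hqb
        exact (Finset.mem_filter.mp hqb).2
      have hne : S.bs q ≠ S.bs q' := by
        intro heq
        apply a2
        rw [← hbl]
        unfold Sys.bl
        rw [S.bsN q q' heq]
      have h2 := hval (y q') (c q') t q q' hqs a1 hne
      rw [hqe] at h2
      exact h2.symm
  have hsplit : ∑ q ∈ S.blk j with S.spl q, ∑ D ∈ S.mods i, α q * β D * S.chr ψ D y c t q *
      (Real.exp (-(S.N q * S.nm D / Y)) : ℂ) =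
      ∑ e : E, ∑ q ∈ S.blk j with (S.spl q ∧ lab q = e),
        ∑ D ∈ S.mods i, α q * β D * S.chr ψ D y c t q *
          (Real.exp (-(S.N q * S.nm D / Y)) : ℂ) := by
    rw [← Finset.sum_fiberwise (S.blk j |>.filter fun q ↦ S.spl q) lab]
    refine Finset.sum_congr rfl fun e _ ↦ ?_
    rw [Finset.filter_filter]
  rw [hsplit]
  refine (norm_sum_le _ _).trans ((Finset.sum_le_sum fun e _ ↦ key e).trans ?_)
  rw [Finset.sum_const, nsmul_eq_mul, Finset.card_univ]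
  refine bound_mono i j (a := Fintype.card E) hK ?_ ?_ Z (Real.exp_pos _).le
  · exact Nat.le_mul_of_pos_left K (Nat.succ_pos _)
  · exact Nat.mul_le_mul_right K (Nat.le_succ _)

end Pool.Agent.Helper54.PP
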