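import Pool.Agent.Helper94.PP.GoalsA1

/-!
# Packet PP-A1-REP (MP_fc6b1e_nt)
-/

namespace Pool.Agent.Helper54.PP

open NumberField Module nonZeroDivisors

theorem absNorm_span_le {F : Type} [Field F] [NumberField F] (ρ : 𝓞 F) :
    (Ideal.absNorm (Ideal.span {ρ}) : ℝ) ≤ house (ρ : F) ^ finrank ℚ F := by
  obtain ⟨σ⟩ : Nonempty (F →+* ℂ) := inferInstance
  have h1 := norm_norm_le_norm_mul_house_pow (ρ : F) σ
  have h2 : ‖σ (ρ : F)‖ ≤ house (ρ : F) := norm_embedding_le_house _ σ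
  have hn : 0 < finrank ℚ F := finrank_pos
  have h3 : house (ρ : F) ^ finrank ℚ F = house (ρ : F) * house (ρ : F) ^ (finrank ℚ F - 1) := by
    rw [← pow_succ']
    congr 1
    omega
  have h4 : (Ideal.absNorm (Ideal.span {ρ}) : ℝ) = ‖Algebra.norm ℚ (ρ : F)‖ := by
    rw [Ideal.absNorm_span_singleton, ← Algebra.coe_norm_int, ← Int.cast_natCast,
      Int.natCast_natAbs]
    simp [Int.norm_eq_abs]
  rw [h4, h3]
  exact h1.trans (mul_le_mul_of_nonneg_right h2 (pow_nonneg (house_nonneg _) _))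

theorem two_not_unit {F : Type} [Field F] [NumberField F] : Ideal.span {(2 : 𝓞 F)} ≠ ⊤ := by
  intro h
  have h1 : Ideal.absNorm (Ideal.span {(2 : 𝓞 F)}) = 1 := by rw [h, Ideal.absNorm_top]
  rw [Ideal.absNorm_span_singleton] at h1
  have h2 : Algebra.norm ℤ (2 : 𝓞 F) = 2 ^ finrank ℤ (𝓞 F) := by
    have := Algebra.norm_algebraMap (S := 𝓞 F) (2 : ℤ)
    simpa using this
  rw [h2, Int.natAbs_pow] at h1
  have h3 : 0 < finrank ℤ (𝓞 F) := by
    rw [RingOfIntegers.rank]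
    exact finrank_pos
  have h4 : 1 < (Int.natAbs 2) ^ finrank ℤ (𝓞 F) := Nat.one_lt_pow h3.ne' (by norm_num)
  omega

theorem goalREP (h1 : Pool.Agent.Helper94.PP.A1_RPS) : Pool.Agent.Helper94.PP.A1_REP := by
  intro F _ _
  classical
  obtain ⟨C₁, hC₁, hrps⟩ := h1 F
  have hsurj : ∀ j : ClassGroup (𝓞 F), ∃ J : (Ideal (𝓞 F))⁰, ClassGroup.mk0 J = j⁻¹ :=
    fun j ↦ ClassGroup.mk0_surjective j⁻¹
  choose J hJ using hsurj
  set n := finrank ℚ F with hn
  set T : Ideal (𝓞 F) := Ideal.span {(2 : 𝓞 F)} with hT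
  set D : ClassGroup (𝓞 F) → ℝ := fun j ↦
    (C₁ * (Ideal.absNorm (J j : Ideal (𝓞 F)) * Ideal.absNorm T)) ^ n with hD
  have hD0 : ∀ j, 0 ≤ D j := fun j ↦ by positivity
  have hT0 : T ≠ ⊥ := by
    rw [hT]
    intro h
    exact two_ne_zero (Ideal.span_singleton_eq_bot.mp h)
  refine ⟨∑ j, D j, Finset.sum_nonneg fun j _ ↦ hD0 j, fun m hm ↦ ?_⟩
  have key : ∀ j : ClassGroup (𝓞 F), ∃ c : (Ideal (𝓞 F))⁰, ClassGroup.mk0 c = j ∧
      (c : Ideal (𝓞 F)) ⊔ m = ⊤ ∧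
      (Ideal.absNorm (c : Ideal (𝓞 F)) : ℝ) ≤ (∑ j, D j) * (Ideal.absNorm m : ℝ) ^ n := by
    intro j
    have hJ0 : (J j : Ideal (𝓞 F)) ≠ ⊥ := mem_nonZeroDivisors_iff_ne_zero.mp (J j).2
    set m' : Ideal (𝓞 F) := m * T with hm'
    have hm'0 : m' ≠ ⊥ := mul_ne_zero hm hT0
    obtain ⟨a, ha⟩ := IsDedekindDomain.exists_sup_span_eq
      (I := (J j : Ideal (𝓞 F)) * m') (J := (J j : Ideal (𝓞 F))) Ideal.mul_le_left
      (mul_ne_zero hJ0 hm'0)
    obtain ⟨ρ, hρ, hρh⟩ := hrps ((J j : Ideal (𝓞 F)) * m') (mul_ne_zero hJ0 hm'0) a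
    have haρ : (J j : Ideal (𝓞 F)) * m' ⊔ Ideal.span {ρ} = (J j : Ideal (𝓞 F)) := by
      refine Eq.trans ?_ ha
      apply le_antisymm
      · refine sup_le le_sup_left ?_
        rw [Ideal.span_singleton_le_iff_mem]
        have e : ρ = (ρ - a) + a := by ring
        rw [e]
        exact Ideal.add_mem _ (Ideal.mem_sup_left hρ)
          (Ideal.mem_sup_right (Ideal.mem_span_singleton_self a))
      · refine sup_le le_sup_left ?_
        rw [Ideal.span_singleton_le_iff_mem]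
        have e : a = -(ρ - a) + ρ := by ring
        rw [e]
        exact Ideal.add_mem _ (Ideal.mem_sup_left (neg_mem hρ))
          (Ideal.mem_sup_right (Ideal.mem_span_singleton_self ρ))
    have hρ0 : ρ ≠ 0 := by
      intro h0
      subst h0
      have e1 : (J j : Ideal (𝓞 F)) * m' = (J j : Ideal (𝓞 F)) * ⊤ := by
        rw [Ideal.mul_top]
        simpa using haρ
      have e2 : m' = ⊤ := mul_left_cancel₀ hJ0 e1
      have e3 : T = ⊤ := top_le_iff.mp (e2 ▸ Ideal.mul_le_right)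
      exact two_not_unit e3
    have hρJ : Ideal.span {ρ} ≤ (J j : Ideal (𝓞 F)) := by
      conv_rhs => rw [← haρ]
      exact le_sup_right
    obtain ⟨c, hc⟩ := Ideal.dvd_iff_le.mpr hρJ
    have hc0 : c ≠ ⊥ := by
      rintro rfl
      rw [Ideal.mul_bot] at hc
      exact hρ0 (Ideal.span_singleton_eq_bot.mp hc)
    have hsup : c ⊔ m' = ⊤ := by
      have h1 : (J j : Ideal (𝓞 F)) * (c ⊔ m') = (J j : Ideal (𝓞 F)) * ⊤ := by
        rw [Ideal.mul_sup, Ideal.mul_top, ← hc, sup_comm]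
        exact haρ
      exact mul_left_cancel₀ hJ0 h1
    refine ⟨⟨c, mem_nonZeroDivisors_iff_ne_zero.mpr hc0⟩, ?_, ?_, ?_⟩
    · have hprod : ClassGroup.mk0
          (J j * ⟨c, mem_nonZeroDivisors_iff_ne_zero.mpr hc0⟩ : (Ideal (𝓞 F))⁰) = 1 := by
        rw [ClassGroup.mk0_eq_one_iff]
        change ((J j : Ideal (𝓞 F)) * c).IsPrincipal
        rw [← hc]
        exact ⟨⟨ρ, rfl⟩⟩
      rw [map_mul, hJ] at hprod
      exact (eq_inv_of_mul_eq_one_right hprod).trans (inv_inv j)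
    · apply top_le_iff.mp
      rw [← hsup]
      exact sup_le_sup_left Ideal.mul_le_left c
    · have e1 : (Ideal.absNorm c : ℝ) ≤ Ideal.absNorm (Ideal.span {ρ}) := by
        rw [hc, map_mul]
        push_cast
        have : (1 : ℝ) ≤ Ideal.absNorm (J j : Ideal (𝓞 F)) := by
          have : 0 < Ideal.absNorm (J j : Ideal (𝓞 F)) :=
            Nat.pos_of_ne_zero (by rwa [Ne, Ideal.absNorm_eq_zero_iff])
          exact_mod_cast this
        exact le_mul_of_one_le_left (Nat.cast_nonneg _) this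
      have e2 := absNorm_span_le ρ
      have e3 : house (ρ : F) ^ n ≤
          (C₁ * Ideal.absNorm ((J j : Ideal (𝓞 F)) * m')) ^ n :=
        pow_le_pow_left₀ (house_nonneg _) hρh n
      have e4 : (C₁ * (Ideal.absNorm ((J j : Ideal (𝓞 F)) * m') : ℝ)) ^ n =
          D j * (Ideal.absNorm m : ℝ) ^ n := by
        rw [hD, ← mul_pow, hm', map_mul, map_mul]
        push_cast
        ring
      have e5 : D j ≤ ∑ j, D j := Finset.single_le_sum (fun j _ ↦ hD0 j) (Finset.mem_univ j)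
      have e6 : D j * (Ideal.absNorm m : ℝ) ^ n ≤ (∑ j, D j) * (Ideal.absNorm m : ℝ) ^ n :=
        mul_le_mul_of_nonneg_right e5 (by positivity)
      calc (Ideal.absNorm c : ℝ) ≤ Ideal.absNorm (Ideal.span {ρ}) := e1
        _ ≤ house (ρ : F) ^ n := e2
        _ ≤ _ := e3
        _ = _ := e4
        _ ≤ _ := e6
  choose c hc1 hc2 hc3 using key
  refine ⟨fun j ↦ (c j : Ideal (𝓞 F)), fun j ↦
    ⟨mem_nonZeroDivisors_iff_ne_zero.mp (c j).2, hc2 j, hc3 j⟩, fun I hI ↦ ?_⟩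
  have hIm : I ∈ (Ideal (𝓞 F))⁰ := mem_nonZeroDivisors_iff_ne_zero.mpr hI
  have hk : ∀ j : ClassGroup (𝓞 F), (I * (c j : Ideal (𝓞 F))).IsPrincipal ↔
      j = (ClassGroup.mk0 (⟨I, hIm⟩ : (Ideal (𝓞 F))⁰))⁻¹ := by
    intro j
    have h1 : ClassGroup.mk0 ((⟨I, hIm⟩ : (Ideal (𝓞 F))⁰) * c j) = 1 ↔
        (I * (c j : Ideal (𝓞 F))).IsPrincipal := by
      rw [ClassGroup.mk0_eq_one_iff]
      rfl
    rw [← h1, map_mul, hc1 j]
    constructor
    · intro h
      exact eq_inv_of_mul_eq_one_right h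
    · rintro rfl
      exact mul_inv_cancel _
  refine ⟨(ClassGroup.mk0 (⟨I, hIm⟩ : (Ideal (𝓞 F))⁰))⁻¹, (hk _).mpr rfl, fun j hj ↦ ?_⟩
  exact (hk j).mp hj

end Pool.Agent.Helper54.PP
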